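import Pool.Agent.H325.T

/-!
# Groups with the law `[x, y] ^ 3 = 1`: the derived subgroup is a locally finite `3`-group, uniformly
-/

set_option autoImplicit false

open scoped commutatorElement

namespace Pool.Agent.H325.CT

open Pool.Agent.H325
open Pool.Agent.W5h59.Bu (LFn)

universe u

/-- the law `[x, y] ^ 3 = 1` -/
def Law (G : Type u) [Group G] : Prop := ∀ x y : G, (x⁻¹ * y⁻¹ * x * y) ^ 3 = 1

/-- `c` is a commutator -/
def IsC {G : Type u} [Group G] (c : G) : Prop := ∃ x y : G, c = x⁻¹ * y⁻¹ * x * y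

variable {G : Type u} [Group G]

theorem Law.h1 (h : Law G) {c : G} (hc : IsC c) : H1 c := by
  obtain ⟨x, y, rfl⟩ := hc
  exact ⟨h x y, fun g => h _ g⟩

theorem Law.mem_rad (h : Law G) {c : G} (hc : IsC c) : c ∈ rad G := (h.h1 hc).rad

theorem isC_comm (x y : G) : IsC ⁅x, y⁆ := ⟨x⁻¹, y⁻¹, by rw [commutatorElement_def]; group⟩

theorem Law.comm_le (h : Law G) : commutator G ≤ rad G := by
  rw [commutator_eq_closure, Subgroup.closure_le]
  rintro _ ⟨x, y, rfl⟩
  exact h.mem_rad (isC_comm x y)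

/-- finite subsets of the derived subgroup generate finite `3`-groups -/
theorem card_of_rad {S : Set G} (hS : S.Finite) (h : S ⊆ rad G) :
    ∃ n : ℕ, Nat.card (Subgroup.closure S) = 3 ^ n := by
  have hle : Subgroup.closure S ≤ rad G := (Subgroup.closure_le _).2 h
  have h1 : LF3 (Subgroup.closure S) := LF3.mono hle (rad_lf G)
  have hfin : Finite (Subgroup.closure S) := by
    have h2 : Finite (Subgroup.closure ((↑) ⁻¹' S : Set (Subgroup.closure S))) :=
      h1.1 _ (hS.preimage Subtype.val_injective.injOn)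
    rw [Subgroup.closure_closure_coe_preimage] at h2
    exact (Subgroup.topEquiv (G := Subgroup.closure S)).toEquiv.finite_iff.1 h2
  have : Fact (Nat.Prime 3) := ⟨Nat.prime_three⟩
  exact (IsPGroup.iff_card).1 h1.2

theorem Law.loc (h : Law G) {S : Set G} (hS : S.Finite) (hSG : S ⊆ commutator G) :
    ∃ n : ℕ, Nat.card (Subgroup.closure S) = 3 ^ n :=
  card_of_rad hS (hSG.trans h.comm_le)

/-- uniform bound -/
theorem unif (d : ℕ) : ∃ n : ℕ, ∀ (G : Type u) [Group G], Law G → ∀ c : Fin d → G, (∀ i, IsC (c i)) →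
    Nat.card (Subgroup.closure (Set.range c)) ∣ 3 ^ n := by
  by_contra hcon
  push Not at hcon
  choose G' iG hL c hc hd using hcon
  have hP : Law (∀ n, G' n) := by
    intro x y
    funext n
    exact hL n (x n) (y n)
  choose x y hxy using hc
  set C : Fin d → ∀ n, G' n := fun i n => c n i with hC
  have hCC : ∀ i, IsC (C i) := fun i => ⟨fun n => x n i, fun n => y n i, by
    funext n
    exact hxy n i⟩
  obtain ⟨m, hm⟩ := card_of_rad (Set.finite_range C) (by
    rintro _ ⟨i, rfl⟩
    exact hP.mem_rad (hCC i))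
  apply hd m
  rw [← hm]
  have e : Subgroup.closure (Set.range (c m)) =
      (Subgroup.closure (Set.range C)).map (Pi.evalMonoidHom G' m) := by
    rw [MonoidHom.map_closure, ← Set.range_comp]
    rfl
  rw [e]
  exact Subgroup.card_map_dvd _ _

/-- the bound -/
noncomputable def ee (d : ℕ) : ℕ := (unif.{u} d).choose

theorem ee_spec (d : ℕ) (h : Law G) (c : Fin d → G) (hc : ∀ i, IsC (c i)) :
    Nat.card (Subgroup.closure (Set.range c)) ∣ 3 ^ ee.{u} d :=
  (unif.{u} d).choose_spec G h c hc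

theorem ee_pow (d : ℕ) (h : Law G) (c : Fin d → G) (hc : ∀ i, IsC (c i)) {z : G}
    (hz : z ∈ Subgroup.closure (Set.range c)) : z ^ 3 ^ ee.{u} d = 1 := by
  have h1 : (⟨z, hz⟩ : Subgroup.closure (Set.range c)) ^ 3 ^ ee.{u} d = 1 := by
    obtain ⟨k, hk⟩ := ee_spec d h c hc
    rw [hk, pow_mul, pow_card_eq_one', one_pow]
  exact congrArg Subtype.val h1

theorem prod_mem_closure {d : ℕ} (c : Fin d → G) :
    (List.ofFn c).prod ∈ Subgroup.closure (Set.range c) := by
  apply Subgroup.list_prod_mem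
  intro z hz
  rw [List.mem_ofFn] at hz
  obtain ⟨i, rfl⟩ := hz
  exact Subgroup.subset_closure ⟨i, rfl⟩

end Pool.Agent.H325.CT
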